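import Pool.Agent.helper53.ORE.Spec

set_option autoImplicit false

namespace Pool.Agent.ORE

open Module Pool.Agent.GS

theorem CWQ (cw : GS.CW_stmt) (cw2 : ORT.CW2_stmt) : CWQ_stmt := by
  intro F V _ _ _ _ _ Q Q'
  constructor
  · intro U hU
    obtain ⟨b, hb⟩ := LinearMap.BilinMap.toQuadraticMap_surjective (Q.comp U.subtype)
    obtain ⟨⟨u, hu, hu0⟩, -⟩ := cw b hU
    refine ⟨u, u.2, fun h => hu (Subtype.ext h), ?_⟩
    have h1 : (Q.comp U.subtype) u = b u u := by
      rw [← hb]
      rfl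
    have h2 : (Q.comp U.subtype) u = Q (u : V) := rfl
    rw [← h2, h1, hu0]
  · intro U hU
    obtain ⟨b, hb⟩ := LinearMap.BilinMap.toQuadraticMap_surjective (Q.comp U.subtype)
    obtain ⟨b', hb'⟩ := LinearMap.BilinMap.toQuadraticMap_surjective (Q'.comp U.subtype)
    obtain ⟨u, hu, hu0, hu1⟩ := cw2 b b' hU
    refine ⟨u, u.2, fun h => hu (Subtype.ext h), ?_, ?_⟩
    · have h1 : (Q.comp U.subtype) u = b u u := by
        rw [← hb]
        rfl
      have h2 : (Q.comp U.subtype) u = Q (u : V) := rfl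
      rw [← h2, h1, hu0]
    · have h1 : (Q'.comp U.subtype) u = b' u u := by
        rw [← hb']
        rfl
      have h2 : (Q'.comp U.subtype) u = Q' (u : V) := rfl
      rw [← h2, h1, hu1]

end Pool.Agent.ORE
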